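import Pool.Agent.H93.CP.Targets

set_option autoImplicit false

open Set Filter Topology Pool.Agent.H93.CP

namespace Pool.Agent.H70.CPT

/-- preimages of meagre sets under right multiplication -/
theorem meagre_mul_right {G : Type} [Group G] [TopologicalSpace G] [IsTopologicalGroup G]
    (a : G) {s : Set G} (hs : IsMeagre s) : IsMeagre ((fun k : G => k * a) ⁻¹' s) :=
  hs.preimage_of_isOpenMap (continuous_mul_const a) (isOpenMap_mul_right a)

theorem pf_CCL (hCME : T_CME) (_hSTM : T_STM) : T_CCL := by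
  intro G X _ _ _ _ _ _ _ _ _ _ D t hT y z zn g gn _ _ _ htz hg hgn
  by_contra hne
  -- a translate
  obtain ⟨h, h1, h2⟩ : ∃ h : G, h • (g • y) ∈ Core G t ∧ h • z ∈ Core G t := by
    by_contra hno
    push Not at hno
    have m1 := hCME G X D t hT (g • y)
    have m2 := hCME G X D t hT z
    have m3 : IsMeagre ({k : G | k • (g • y) ∉ Core G t} ∪ {k : G | k • z ∉ Core G t}) :=
      m1.union m2
    refine not_isMeagre_of_isOpen (isOpen_univ (X := G)) ⟨1, mem_univ _⟩ (m3.mono ?_)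
    intro k _
    by_cases hk : k • (g • y) ∈ Core G t
    · exact Or.inr (hno k hk)
    · exact Or.inl hk
  have hne' : h • (g • y) ≠ h • z := fun e => hne (MulAction.injective h e)
  -- separation
  obtain ⟨O1, O2, hO1, hO2, hy1, hz2, hdis⟩ : ∃ O1 O2 : Set X, IsOpen[t] O1 ∧ IsOpen[t] O2 ∧
      h • (g • y) ∈ O1 ∧ h • z ∈ O2 ∧ Disjoint O1 O2 := by
    have hpol := hT.pol
    exact @t2_separation X t (by infer_instance) _ _ hne'
  obtain ⟨B, V, hB, -, hV, -, hst⟩ := hT.star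
  obtain ⟨O', hO'B, hzO', hO'2⟩ := hB.exists_subset_of_mem_open hz2 hO2
  have hO' : IsOpen[t] O' := hB.isOpen hO'B
  obtain ⟨U', hU', h1U', hzU'⟩ := h2 O' hO' hzO'
  obtain ⟨U, hU, h1U, hyU⟩ := h1 O1 hO1 hy1
  have hW : IsOpen ((fun k : G => k * h⁻¹) ⁻¹' U') := hU'.preimage (continuous_mul_const _)
  have hhW : h ∈ (fun k : G => k * h⁻¹) ⁻¹' U' := by
    show h * h⁻¹ ∈ U'
    rwa [mul_inv_cancel]
  obtain ⟨V', hV'V, hhV', hV'W⟩ := hV.exists_subset_of_mem_open hhW hW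
  have hzs : z ∈ Star O' V' := by
    refine (meagre_mul_right h⁻¹ hzU').mono ?_
    rintro k ⟨hk, hk2⟩
    refine ⟨hV'W hk, ?_⟩
    show (k * h⁻¹) • (h • z) ∉ O'
    rwa [smul_smul, inv_mul_cancel_right]
  have hop : IsOpen[t] (Star O' V') := hst O' hO'B V' hV'V
  have hev1 : ∀ᶠ n in atTop, zn n ∈ Star O' V' := htz (@IsOpen.mem_nhds X t z _ hop hzs)
  have hV'o : IsOpen V' := hV.isOpen hV'V
  have hev2 : ∀ᶠ n in atTop, h * g * (gn n)⁻¹ ∈ V' := by
    have hc : Tendsto (fun n => h * g * (gn n)⁻¹) atTop (𝓝 (h * g * g⁻¹)) :=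
      (hg.inv).const_mul (h * g)
    rw [mul_inv_cancel_right] at hc
    exact hc (hV'o.mem_nhds hhV')
  obtain ⟨n, hn1, hn2⟩ := (hev1.and hev2).exists
  have e1 : IsMeagre ((fun m : G => m * (gn n)⁻¹) ⁻¹' {k : G | k ∈ V' ∧ k • zn n ∉ O'}) :=
    meagre_mul_right _ hn1
  have e2 : IsMeagre ((fun m : G => m * (h * g)⁻¹) ⁻¹'
      {k : G | k ∈ U ∧ k • (h • (g • y)) ∉ O1}) := meagre_mul_right _ hyU
  refine not_isMeagre_of_isOpen
    (s := (fun m : G => m * (gn n)⁻¹) ⁻¹' V' ∩ (fun m : G => m * (h * g)⁻¹) ⁻¹' U)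
    ((hV'o.preimage (continuous_mul_const _)).inter (hU.preimage (continuous_mul_const _)))
    ⟨h * g, hn2, ?_⟩ ((e1.union e2).mono ?_)
  · show h * g * (h * g)⁻¹ ∈ U
    rwa [mul_inv_cancel]
  · rintro m ⟨hm1, hm2⟩
    by_cases hm : m • y ∈ O'
    · right
      refine ⟨hm2, ?_⟩
      show (m * (h * g)⁻¹) • (h • (g • y)) ∉ O1
      have : (m * (h * g)⁻¹) • (h • (g • y)) = m • y := by
        rw [smul_smul h g y, smul_smul, inv_mul_cancel_right]
      rw [this]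
      exact fun h3 => (Set.disjoint_left.1 hdis) h3 (hO'2 hm)
    · left
      refine ⟨hm1, ?_⟩
      show (m * (gn n)⁻¹) • zn n ∉ O'
      have : (m * (gn n)⁻¹) • zn n = m • y := by
        rw [← hgn n, smul_smul, inv_mul_cancel_right]
      rwa [this]

end Pool.Agent.H70.CPT
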